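import Pool.Agent.Y292.TF.Scal
import Pool.Agent.H696DT.Limit

set_option autoImplicit false

open MeasureTheory Finset Filter Topology Pool.Agent.H696DT

namespace Pool.Agent.Y292.TF

/-- the power of the `L^p` norm over the box -/
noncomputable def nrp (p : ℝ) (N : ℕ) (f : ℝ × ℝ → ℝ) : ℝ := ∫ z in B2 N, |f z| ^ p

lemma nrp_step (p : ℝ) (N M : ℕ) (F : ℕ → ℕ → ℝ) :
    nrp p N (st M F) = 4 ^ N * avg (fun x => |x| ^ p) (N + M) F := by
  have h2 := int2 M (2 ^ (N + M)) (fun i j => |F i j| ^ p)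
  rw [← II_eq] at h2
  unfold nrp B2 st avg
  rw [h2, ← mul_assoc]
  congr 1
  rw [pow_add, ← mul_assoc, ← mul_pow]
  norm_num
  rw [← pow_mul, mul_comm M 2, pow_mul]
  norm_num

/-- the discrete inequality -/
def Dsc (C p q r : ℝ) : Prop := ∀ (n : ℕ) (f g h : ℕ → ℕ → ℝ),
  ∑ s ∈ range n, |TH704.Lam n s f g h| ≤ C * (avg (fun x => |x| ^ p) n f +
    avg (fun x => |x| ^ q) n g + avg (fun x => |x| ^ r) n h)

lemma step_bound3 {C p q r : ℝ} (hC : Dsc C p q r)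
    (N M : ℕ) (S : Finset ℤ) (hS : ∀ k ∈ S, -(M : ℤ) < k ∧ k ≤ N) (F G H : ℕ → ℕ → ℝ) :
    ∑ k ∈ S, |(2:ℝ) ^ (-k) *
        ∫ p in B3 N, prd (st M F) (st M G) (st M H) p * W k p.1 p.2.1 p.2.2| ≤
      C * (nrp p N (st M F) + nrp q N (st M G) + nrp r N (st M H)) := by
  have h1 : ∀ k ∈ S, |(2:ℝ) ^ (-k) *
        ∫ p in B3 N, prd (st M F) (st M G) (st M H) p * W k p.1 p.2.1 p.2.2| =
      4 ^ N * |TH704.Lam (N + M) ((N : ℤ) - k).toNat F G H| := by
    intro k hk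
    obtain ⟨hk1, hk2⟩ := hS k hk
    have hkM : k = (((k + M - 1).toNat : ℕ) : ℤ) + 1 - M := by
      rw [Int.toNat_of_nonneg (by omega)]; ring
    have hs : ((N : ℤ) - k).toNat = N + M - ((k + M - 1).toNat + 1) := by omega
    rw [form_step N M (k + M - 1).toNat (by omega) k hkM F G H, abs_mul,
      abs_of_nonneg (by positivity : (0:ℝ) ≤ 4 ^ N), hs]
  rw [sum_congr rfl h1, ← mul_sum]
  have hinj : Set.InjOn (fun k : ℤ => ((N : ℤ) - k).toNat) (S : Set ℤ) := by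
    intro a ha b hb hab
    have h1 := hS a ha
    have h2 := hS b hb
    simp only at hab
    omega
  have h2 : ∑ k ∈ S, |TH704.Lam (N + M) ((N : ℤ) - k).toNat F G H| ≤
      ∑ s ∈ range (N + M), |TH704.Lam (N + M) s F G H| := by
    rw [← sum_image (f := fun s => |TH704.Lam (N + M) s F G H|) hinj]
    refine sum_le_sum_of_subset_of_nonneg ?_ fun _ _ _ => abs_nonneg _
    intro s hs
    rw [mem_image] at hs
    obtain ⟨k, hk, rfl⟩ := hs
    have := hS k hk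
    rw [mem_range]
    omega
  calc 4 ^ N * ∑ k ∈ S, |TH704.Lam (N + M) ((N : ℤ) - k).toNat F G H|
      ≤ 4 ^ N * (C * (avg (fun x => |x| ^ p) (N + M) F + avg (fun x => |x| ^ q) (N + M) G +
          avg (fun x => |x| ^ r) (N + M) H)) :=
        mul_le_mul_of_nonneg_left (h2.trans (hC _ _ _ _)) (by positivity)
    _ = _ := by rw [nrp_step, nrp_step, nrp_step]; ring

lemma tendsto_nrp {p : ℝ} (hp : 0 < p) (N : ℕ) {f : ℝ × ℝ → ℝ} (hf : Measurable f) {B : ℝ}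
    (hfB : ∀ z, |f z| ≤ B) :
    Tendsto (fun M => nrp p N (st M (av f M))) atTop (𝓝 (nrp p N f)) := by
  have hB0 : 0 ≤ B := (abs_nonneg _).trans (hfB 0)
  unfold nrp
  refine tendsto_integral_of_dominated_convergence (fun _ => B ^ p) ?_ ?_ ?_ ?_
  · intro M
    exact ((meas_st M _).abs.pow_const p).aestronglyMeasurable
  · exact integrableOn_const (vol_B2 N).ne
  · intro M
    refine (ae_restrict_iff' (meas_B2 N)).2 (Eventually.of_forall fun z hz => ?_)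
    rw [Real.norm_eq_abs, abs_of_nonneg (Real.rpow_nonneg (abs_nonneg _) _)]
    unfold st
    exact Real.rpow_le_rpow (abs_nonneg _) (av_le hfB M (ix M z.1) (ix M z.2)) hp.le
  · refine (ae_restrict_iff' (meas_B2 N)).2 ?_
    filter_upwards [av_tendsto (locInt hf hfB)] with z hz hzB
    exact ((hz hzB.1.1 hzB.2.1).abs).rpow_const (Or.inr hp.le)

lemma box_bound3 {C p q r : ℝ} (hC : Dsc C p q r) (hp : 0 < p) (hq : 0 < q) (hr : 0 < r)
    (N : ℕ) (S : Finset ℤ) (hS : ∀ k ∈ S, k ≤ (N : ℤ)) {f g h : ℝ × ℝ → ℝ} (hf : Measurable f)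
    (hg : Measurable g) (hh : Measurable h) {B : ℝ} (hfB : ∀ p, |f p| ≤ B) (hgB : ∀ p, |g p| ≤ B)
    (hhB : ∀ p, |h p| ≤ B) :
    ∑ k ∈ S, |(2:ℝ) ^ (-k) * ∫ p in B3 N, prd f g h p * W k p.1 p.2.1 p.2.2| ≤
      C * (nrp p N f + nrp q N g + nrp r N h) := by
  have h1 : Tendsto (fun M => ∑ k ∈ S, |(2:ℝ) ^ (-k) * ∫ p in B3 N,
      prd (st M (av f M)) (st M (av g M)) (st M (av h M)) p * W k p.1 p.2.1 p.2.2|) atTop
      (𝓝 (∑ k ∈ S, |(2:ℝ) ^ (-k) * ∫ p in B3 N, prd f g h p * W k p.1 p.2.1 p.2.2|)) :=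
    tendsto_finsetSum _ fun k _ => ((tendsto_form N k hf hg hh hfB hgB hhB).const_mul _).abs
  have h2 : Tendsto (fun M => C * (nrp p N (st M (av f M)) + nrp q N (st M (av g M)) +
      nrp r N (st M (av h M)))) atTop (𝓝 (C * (nrp p N f + nrp q N g + nrp r N h))) :=
    (((tendsto_nrp hp N hf hfB).add (tendsto_nrp hq N hg hgB)).add
      (tendsto_nrp hr N hh hhB)).const_mul _
  refine le_of_tendsto_of_tendsto h1 h2 ?_
  obtain ⟨b, hb⟩ := (S.image fun k : ℤ => (-k).toNat + 1).exists_le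
  filter_upwards [eventually_ge_atTop b] with M hM
  refine step_bound3 hC N M S (fun k hk => ⟨?_, hS k hk⟩) _ _ _
  have := hb _ (mem_image_of_mem _ hk)
  omega

/-- homogenisation -/
lemma scal3 {L C A B D p q r : ℝ} (hp : 0 < p) (hq : 0 < q) (hr : 0 < r)
    (hpqr : 1 / p + 1 / q + 1 / r = 1) (hC : 0 ≤ C) (hA : 0 ≤ A) (hB : 0 ≤ B) (hD : 0 ≤ D)
    (h : ∀ s t u : ℝ, 0 < s → 0 < t → 0 < u → s * t * u = 1 →
      L ≤ C * ((s * A) ^ p + (t * B) ^ q + (u * D) ^ r)) : L ≤ 3 * C * (A * B * D) := by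
  have h1 : ∀ δ : ℝ, 0 < δ → L ≤ 3 * C * ((A + δ) * (B + δ) * (D + δ)) := by
    intro δ hδ
    obtain ⟨a, ha⟩ : ∃ a, a = A + δ := ⟨_, rfl⟩
    obtain ⟨b, hb⟩ : ∃ b, b = B + δ := ⟨_, rfl⟩
    obtain ⟨d, hd⟩ : ∃ d, d = D + δ := ⟨_, rfl⟩
    rw [← ha, ← hb, ← hd]
    have pa : 0 < a := by rw [ha]; positivity
    have pb : 0 < b := by rw [hb]; positivity
    have pd : 0 < d := by rw [hd]; positivity
    obtain ⟨ρ, hρ⟩ : ∃ ρ : ℝ, ρ = a * b * d := ⟨_, rfl⟩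
    have hρ0 : 0 < ρ := by rw [hρ]; positivity
    have hP : ∀ e : ℝ, 0 < ρ ^ (1 / e) := fun e => Real.rpow_pos_of_pos hρ0 _
    have hh := h (ρ ^ (1 / p) / a) (ρ ^ (1 / q) / b) (ρ ^ (1 / r) / d) (div_pos (hP _) pa)
      (div_pos (hP _) pb) (div_pos (hP _) pd) (by
      have : ρ ^ (1 / p) / a * (ρ ^ (1 / q) / b) * (ρ ^ (1 / r) / d) =
          (ρ ^ (1 / p) * ρ ^ (1 / q) * ρ ^ (1 / r)) / (a * b * d) := by field_simp
      rw [this, ← Real.rpow_add hρ0, ← Real.rpow_add hρ0, hpqr, Real.rpow_one, hρ]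
      exact div_self (by positivity))
    have key : ∀ {e x X : ℝ}, 0 < e → 0 < x → 0 ≤ X → X ≤ x →
        (ρ ^ (1 / e) / x * X) ^ e ≤ ρ := by
      intro e x X he hx hX hXx
      have k0 : ρ ^ (1 / e) / x * X ≤ ρ ^ (1 / e) := by
        rw [div_mul_eq_mul_div, div_le_iff₀ hx]
        exact mul_le_mul_of_nonneg_left hXx (hP _).le
      calc (ρ ^ (1 / e) / x * X) ^ e ≤ (ρ ^ (1 / e)) ^ e :=
            Real.rpow_le_rpow (mul_nonneg (div_nonneg (hP _).le hx.le) hX) k0 he.le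
        _ = ρ := by
          rw [← Real.rpow_mul hρ0.le, one_div, inv_mul_cancel₀ he.ne', Real.rpow_one]
    have k1 := key hp pa hA (by rw [ha]; linarith)
    have k2 := key hq pb hB (by rw [hb]; linarith)
    have k3 := key hr pd hD (by rw [hd]; linarith)
    calc L ≤ _ := hh
      _ ≤ C * (ρ + ρ + ρ) := mul_le_mul_of_nonneg_left (by linarith) hC
      _ = 3 * C * (a * b * d) := by rw [hρ]; ring
  have hcont : Tendsto (fun δ : ℝ => 3 * C * ((A + δ) * (B + δ) * (D + δ))) (𝓝[>] 0)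
      (𝓝 (3 * C * ((A + 0) * (B + 0) * (D + 0)))) := by
    apply Tendsto.mono_left _ nhdsWithin_le_nhds
    apply Continuous.tendsto
    fun_prop
  simp only [add_zero] at hcont
  refine ge_of_tendsto hcont ?_
  filter_upwards [self_mem_nhdsWithin] with δ hδ
  exact h1 δ hδ

end Pool.Agent.Y292.TF
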