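import Pool.Agent.Helper704.TH.Main

set_option autoImplicit false

open Matrix Finset Pool.Agent.TH704

namespace Pool.Agent.Y292.TF

noncomputable section

variable {ι : Type*} [Fintype ι] [DecidableEq ι]

/-- `β(A)` or `2 β(A/2)` -/
def bf (b : Bool) (A : Matrix ι ι ℝ) : Matrix ι ι ℝ := if b then bet2 A else bet A

theorem bf_facts (b : Bool) (A : Matrix ι ι ℝ) :
    ((4 : ℝ) • QQ A - bf b A * (bf b A)ᵀ).PosSemidef ∧
      ((4 : ℝ) • PP A - (bf b A)ᵀ * bf b A).PosSemidef := by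
  cases b with
  | true => exact bet2_facts A
  | false =>
    simp only [bf, Bool.false_eq_true, if_false]
    obtain ⟨a, b⟩ := bet_facts A
    have c := (QQ_psd A).smul (show (0:ℝ) ≤ 3 by norm_num)
    have d := (PP_psd A).smul (show (0:ℝ) ≤ 3 by norm_num)
    constructor
    · have := a.add c
      convert this using 1
      module
    · have := b.add d
      convert this using 1
      module

theorem bf_del (b : Bool) (A : Matrix ι ι ℝ) :
    ∃ G : Matrix ι ι ℝ, bf b A - bet A = G * PP A ∧ (QQ A - G * PP A * Gᵀ).PosSemidef := by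
  cases b with
  | true => exact del_fact A
  | false =>
    refine ⟨0, by simp [bf], ?_⟩
    simpa using QQ_psd A

theorem DBf (a b c : Bool) (A B C : Matrix (Bool × ι) (Bool × ι) ℝ) :
    |DD (bf a A) (bf b B) (bf c C) - DD (bet A) (bet B) (bet C)| ≤ 4 * E3 A B C := by
  obtain ⟨GA, hA1, hA2⟩ := bf_del a A
  obtain ⟨GB, hB1, hB2⟩ := bf_del b B
  obtain ⟨GC, hC1, hC2⟩ := bf_del c C
  have t1 := DBterm A B C GA (bf b B) (bf c C) hA2 (bf_facts b B).1 (bf_facts c C).2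
  have t2 := DBterm B C A GB (bf c C) (bf false A) hB2 (bf_facts c C).1 (bf_facts false A).2
  have t3 := DBterm C A B GC (bf false A) (bf false B) hC2 (bf_facts false A).1 (bf_facts false B).2
  rw [← hA1] at t1
  rw [← hB1] at t2
  rw [← hC1] at t3
  have hf : ∀ M : Matrix (Bool × ι) (Bool × ι) ℝ, bf false M = bet M := fun M => by simp [bf]
  rw [hf] at t2
  rw [hf, hf] at t3
  have key : DD (bf a A) (bf b B) (bf c C) - DD (bet A) (bet B) (bet C) =
      trace (sgm * (bf a A - bet A) * sgm * bf b B * sgm * bf c C)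
      + trace (sgm * (bf b B - bet B) * sgm * bf c C * sgm * bet A)
      + trace (sgm * (bf c C - bet C) * sgm * bet A * sgm * bet B) := by
    have c1 : trace (sgm * (bf b B - bet B) * sgm * bf c C * sgm * bet A)
        = trace (sgm * bet A * sgm * (bf b B - bet B) * sgm * bf c C) := by
      have : sgm * (bf b B - bet B) * sgm * bf c C * sgm * bet A
          = (sgm * (bf b B - bet B) * sgm * bf c C) * (sgm * bet A) := by
        simp only [Matrix.mul_assoc]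
      rw [this, Matrix.trace_mul_comm]
      simp only [Matrix.mul_assoc]
    have c2 : trace (sgm * (bf c C - bet C) * sgm * bet A * sgm * bet B)
        = trace (sgm * bet A * sgm * bet B * sgm * (bf c C - bet C)) := by
      have : sgm * (bf c C - bet C) * sgm * bet A * sgm * bet B
          = (sgm * (bf c C - bet C)) * (sgm * bet A * sgm * bet B) := by
        simp only [Matrix.mul_assoc]
      rw [this, Matrix.trace_mul_comm]
      simp only [Matrix.mul_assoc]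
    rw [c1, c2]
    unfold DD
    simp only [Matrix.mul_sub, Matrix.sub_mul, Matrix.trace_sub]
    ring
  rw [key]
  unfold E3
  have a1 := abs_add_le (trace (sgm * (bf a A - bet A) * sgm * bf b B * sgm * bf c C)
      + trace (sgm * (bf b B - bet B) * sgm * bf c C * sgm * bet A))
      (trace (sgm * (bf c C - bet C) * sgm * bet A * sgm * bet B))
  have a2 := abs_add_le (trace (sgm * (bf a A - bet A) * sgm * bf b B * sgm * bf c C))
      (trace (sgm * (bf b B - bet B) * sgm * bf c C * sgm * bet A))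
  linarith

/-- the truncated form with three thresholds -/
def T3 (a b c : ℝ) (A B C : Matrix (Bool × ι) (Bool × ι) ℝ) : ℝ :=
  a * b * c * DD (bet (a⁻¹ • A)) (bet (b⁻¹ • B)) (bet (c⁻¹ • C))

theorem T3_hom (a b c : ℝ) (X Y Z : Matrix (Bool × ι) (Bool × ι) ℝ) :
    a * b * c * DD X Y Z = DD (a • X) (b • Y) (c • Z) := by
  unfold DD
  simp only [Matrix.mul_smul, Matrix.smul_mul, Matrix.trace_smul, smul_eq_mul]
  ring

/-- the factor of a flag -/
def fl (b : Bool) : ℝ := if b then 2 else 1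

theorem bf_fl (b : Bool) (a : ℝ) (A : Matrix (Bool × ι) (Bool × ι) ℝ) :
    fl b • bet ((fl b * a)⁻¹ • A) = bf b (a⁻¹ • A) := by
  cases b with
  | true =>
    simp only [fl, bf, if_true, bet2]
    rw [smul_smul]
    congr 3
    rw [mul_inv]; norm_num
  | false => simp [fl, bf]

theorem T3_step (x y z : Bool) (a b c : ℝ) (ha : 0 < a) (hb : 0 < b) (hc : 0 < c)
    (A B C : Matrix (Bool × ι) (Bool × ι) ℝ) :
    |T3 (fl x * a) (fl y * b) (fl z * c) A B C - T3 a b c A B C| ≤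
      4 * (a * b * c * E3 (a⁻¹ • A) (b⁻¹ • B) (c⁻¹ • C)) := by
  have h := DBf x y z (a⁻¹ • A) (b⁻¹ • B) (c⁻¹ • C)
  have e : T3 (fl x * a) (fl y * b) (fl z * c) A B C - T3 a b c A B C =
      a * b * c * (DD (bf x (a⁻¹ • A)) (bf y (b⁻¹ • B)) (bf z (c⁻¹ • C))
        - DD (bet (a⁻¹ • A)) (bet (b⁻¹ • B)) (bet (c⁻¹ • C))) := by
    rw [← bf_fl, ← bf_fl, ← bf_fl, ← T3_hom]
    unfold T3
    ring
  have hp : 0 < a * b * c := by positivity
  rw [e, abs_mul, abs_of_pos hp]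
  nlinarith

/-- a sequence of thresholds that doubles or stays -/
structure Dbl (t : ℕ → ℝ) : Prop where
  pos : ∀ k, 0 < t k
  nxt : ∀ k, ∃ b : Bool, t (k + 1) = fl b * t k

theorem T3_tele {a b c : ℕ → ℝ} (ha : Dbl a) (hb : Dbl b) (hc : Dbl c)
    (A B C : Matrix (Bool × ι) (Bool × ι) ℝ) : ∀ K : ℕ,
    |T3 (a K) (b K) (c K) A B C - T3 (a 0) (b 0) (c 0) A B C| ≤ ∑ k ∈ range K,
      4 * (a k * b k * c k * E3 ((a k)⁻¹ • A) ((b k)⁻¹ • B) ((c k)⁻¹ • C))
  | 0 => by simp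
  | K + 1 => by
    rw [Finset.sum_range_succ]
    have h1 := T3_tele ha hb hc A B C K
    obtain ⟨x, hx⟩ := ha.nxt K
    obtain ⟨y, hy⟩ := hb.nxt K
    obtain ⟨z, hz⟩ := hc.nxt K
    have h2 := T3_step x y z (a K) (b K) (c K) (ha.pos K) (hb.pos K) (hc.pos K) A B C
    rw [← hx, ← hy, ← hz] at h2
    have h3 : T3 (a (K + 1)) (b (K + 1)) (c (K + 1)) A B C - T3 (a 0) (b 0) (c 0) A B C =
      (T3 (a (K + 1)) (b (K + 1)) (c (K + 1)) A B C - T3 (a K) (b K) (c K) A B C) +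
        (T3 (a K) (b K) (c K) A B C - T3 (a 0) (b 0) (c 0) A B C) := by
      ring
    rw [h3]
    refine (abs_add_le _ _).trans ?_
    linarith

/-! ### trees -/

theorem tree_sA3 (N : ℕ → Arr → Arr → Arr → ℝ) (a b c : ℝ) : ∀ (n : ℕ) (f g h : Arr),
    tree N n (sA a f) (sA b g) (sA c h) =
      tree (fun n f g h => N n (sA a f) (sA b g) (sA c h)) n f g h
  | 0, _, _, _ => rfl
  | n + 1, f, g, h => by
    simp only [tree, sh_sA, tree_sA3 N a b c n]

theorem leaf_sA3 (L : ℝ → ℝ → ℝ → ℝ) (a b c : ℝ) : ∀ (n : ℕ) (f g h : Arr),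
    leaf L n (sA a f) (sA b g) (sA c h) = leaf (fun x y z => L (a * x) (b * y) (c * z)) n f g h
  | 0, _, _, _ => rfl
  | n + 1, f, g, h => by
    simp only [leaf, sh_sA, leaf_sA3 L a b c n]

/-- average of a function of the entries -/
def avg (u : ℝ → ℝ) (n : ℕ) (f : Arr) : ℝ :=
  (1 / 4) ^ n * ∑ i ∈ range (2 ^ n), ∑ j ∈ range (2 ^ n), u (f i j)

theorem avg_succ (u : ℝ → ℝ) (n : ℕ) (f : Arr) :
    avg u (n + 1) f = (1 / 4) * ∑ a : Bool, ∑ b : Bool, avg u n (sh n a b f) := by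
  unfold avg sh
  rw [sum_two_pow_succ]
  simp only [sum_two_pow_succ]
  simp only [Fintype.sum_bool, pow_succ, Finset.sum_add_distrib]
  ring

theorem leaf_avg (u v w : ℝ → ℝ) (n : ℕ) (f g h : Arr) :
    leaf (fun x y z => u x + v y + w z) n f g h = avg u n f + avg v n g + avg w n h := by
  induction n generalizing f g h with
  | zero => simp [leaf, avg]
  | succ n ih =>
    rw [leaf, avg_succ, avg_succ, avg_succ]
    simp only [ih, Fintype.sum_bool, Bool.xor_true, Bool.xor_false, Bool.not_true, Bool.not_false]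
    ring

/-- the summability of the leaf terms -/
def Leaf (a b c : ℕ → ℝ) (t : ℕ → ℝ) (D p : ℝ) (K : ℕ) : Prop :=
  ∀ x : ℝ, ∑ k ∈ range K, a k * b k * c k * sc ((t k)⁻¹ * x) ≤ D * |x| ^ p

theorem tree_T3 {a b c : ℕ → ℝ} (ha : Dbl a) (hb : Dbl b) (hc : Dbl c) {D p q r : ℝ} {K : ℕ}
    (hp : Leaf a b c a D p K) (hq : Leaf a b c b D q K) (hr : Leaf a b c c D r K)
    (n : ℕ) (f g h : Arr) :
    tree (fun n f g h => |T3 (a K) (b K) (c K) (mt1 n f) (mt1 n g) (mt1 n h)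
      - T3 (a 0) (b 0) (c 0) (mt1 n f) (mt1 n g) (mt1 n h)|) n f g h ≤
      184 * D * (avg (fun x => |x| ^ p) n f + avg (fun x => |x| ^ q) n g +
        avg (fun x => |x| ^ r) n h) := by
  have h1 := tree_mono (N := fun n f g h => |T3 (a K) (b K) (c K) (mt1 n f) (mt1 n g) (mt1 n h)
      - T3 (a 0) (b 0) (c 0) (mt1 n f) (mt1 n g) (mt1 n h)|) (N' := fun n f g h => ∑ k ∈ range K,
        (4 * (a k * b k * c k)) * NE n (sA (a k)⁻¹ f) (sA (b k)⁻¹ g)
          (sA (c k)⁻¹ h)) (fun n f g h => by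
            have := T3_tele ha hb hc (mt1 n f) (mt1 n g) (mt1 n h) K
            refine this.trans (le_of_eq ?_)
            refine Finset.sum_congr rfl fun k _ => ?_
            simp only [NE, mt1_sA]
            ring) n f g h
  refine h1.trans ?_
  rw [tree_sum (range K) (fun k n f g h => (4 * (a k * b k * c k)) * NE n (sA (a k)⁻¹ f)
    (sA (b k)⁻¹ g) (sA (c k)⁻¹ h)) n f g h]
  have h2 : ∀ k ∈ range K, tree (fun n f g h => (4 * (a k * b k * c k)) *
      NE n (sA (a k)⁻¹ f) (sA (b k)⁻¹ g) (sA (c k)⁻¹ h)) n f g h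
      ≤ 184 * leaf (fun x y z => a k * b k * c k * (sc ((a k)⁻¹ * x) +
        sc ((b k)⁻¹ * y) + sc ((c k)⁻¹ * z))) n f g h := by
    intro k _
    rw [tree_smul (fun n f g h => NE n (sA (a k)⁻¹ f) (sA (b k)⁻¹ g)
      (sA (c k)⁻¹ h)), ← tree_sA3 NE]
    have h3 := tree_E n (sA (a k)⁻¹ f) (sA (b k)⁻¹ g) (sA (c k)⁻¹ h)
    have h4 := phi_nonneg (mt n (sA (a k)⁻¹ f)) (mt n (sA (b k)⁻¹ g))
      (mt n (sA (c k)⁻¹ h))
    rw [leaf_sA3] at h3
    rw [leaf_smul (fun x y z => sc ((a k)⁻¹ * x) + sc ((b k)⁻¹ * y)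
      + sc ((c k)⁻¹ * z))]
    have h5 : (0:ℝ) < 4 * (a k * b k * c k) := by
      have := ha.pos k
      have := hb.pos k
      have := hc.pos k
      positivity
    have h6 : tree NE n (sA (a k)⁻¹ f) (sA (b k)⁻¹ g) (sA (c k)⁻¹ h) ≤
      46 * leaf (fun x y z => sc ((a k)⁻¹ * x) + sc ((b k)⁻¹ * y)
      + sc ((c k)⁻¹ * z)) n f g h := by linarith
    have h7 := mul_le_mul_of_nonneg_left h6 h5.le
    linarith
  refine (Finset.sum_le_sum h2).trans ?_
  rw [← Finset.mul_sum, ← leaf_sum (range K) (fun k x y z => a k * b k * c k *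
    (sc ((a k)⁻¹ * x) + sc ((b k)⁻¹ * y) + sc ((c k)⁻¹ * z))) n f g h]
  have h8 := leaf_mono (L := fun x y z => ∑ k ∈ range K, a k * b k * c k *
    (sc ((a k)⁻¹ * x) + sc ((b k)⁻¹ * y) + sc ((c k)⁻¹ * z)))
    (L' := fun x y z => D * (|x| ^ p + |y| ^ q + |z| ^ r)) (fun x y z => by
      have hx := hp x
      have hy := hq y
      have hz := hr z
      have : ∑ k ∈ range K, a k * b k * c k * (sc ((a k)⁻¹ * x) + sc ((b k)⁻¹ * y)
        + sc ((c k)⁻¹ * z)) = ∑ k ∈ range K, a k * b k * c k * sc ((a k)⁻¹ * x) +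
        ∑ k ∈ range K, a k * b k * c k * sc ((b k)⁻¹ * y) +
        ∑ k ∈ range K, a k * b k * c k * sc ((c k)⁻¹ * z) := by
        rw [← Finset.sum_add_distrib, ← Finset.sum_add_distrib]
        exact Finset.sum_congr rfl fun k _ => by ring
      rw [this]
      linarith) n f g h
  rw [leaf_smul (fun x y z => |x| ^ p + |y| ^ q + |z| ^ r),
    leaf_avg (fun x => |x| ^ p) (fun x => |x| ^ q) (fun x => |x| ^ r)] at h8
  linarith

/-! ### limits -/

theorem T3_bet (l : ℝ) (hl : l ≠ 0) (A : Matrix (Bool × ι) (Bool × ι) ℝ) :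
    l • bet (l⁻¹ • A) = A * (1 + (l⁻¹) ^ 2 • (Aᵀ * A))⁻¹ := TT_bet l hl A

theorem T3_atTop {a b c : ℕ → ℝ} (ha : ∀ K, a K ≠ 0) (hb : ∀ K, b K ≠ 0) (hc : ∀ K, c K ≠ 0)
    (ta : Filter.Tendsto (fun K => (a K)⁻¹) Filter.atTop (nhds 0))
    (tb : Filter.Tendsto (fun K => (b K)⁻¹) Filter.atTop (nhds 0))
    (tc : Filter.Tendsto (fun K => (c K)⁻¹) Filter.atTop (nhds 0))
    (A B C : Matrix (Bool × ι) (Bool × ι) ℝ) :
    Filter.Tendsto (fun K : ℕ => T3 (a K) (b K) (c K) A B C) Filter.atTop (nhds (DD A B C)) := by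
  have h1 : ∀ (t : ℕ → ℝ), Filter.Tendsto (fun K => (t K)⁻¹) Filter.atTop (nhds 0) →
      ∀ A : Matrix (Bool × ι) (Bool × ι) ℝ,
      Filter.Tendsto (fun K : ℕ => A * (1 + ((t K)⁻¹) ^ 2 • (Aᵀ * A))⁻¹) Filter.atTop
        (nhds A) := by
    intro t h0 A
    have h2 := (TT_inv_tendsto (Aᵀ * A)).comp h0
    have h3 : Filter.Tendsto (fun K : ℕ => A * (1 + ((t K)⁻¹) ^ 2 • (Aᵀ * A))⁻¹)
        Filter.atTop (nhds (A * 1)) := by
      have hc : Continuous (fun X : Matrix (Bool × ι) (Bool × ι) ℝ => A * X) := by fun_prop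
      exact (hc.tendsto 1).comp h2
    simpa using h3
  have hc' : Continuous (fun p : Matrix (Bool × ι) (Bool × ι) ℝ ×
      Matrix (Bool × ι) (Bool × ι) ℝ × Matrix (Bool × ι) (Bool × ι) ℝ =>
      DD p.1 p.2.1 p.2.2) := by
    unfold DD
    apply Continuous.matrix_trace
    fun_prop
  have h4 := (hc'.tendsto (A, B, C)).comp
    ((h1 a ta A).prodMk_nhds ((h1 b tb B).prodMk_nhds (h1 c tc C)))
  refine h4.congr ?_
  intro K
  show DD (A * (1 + ((a K)⁻¹) ^ 2 • (Aᵀ * A))⁻¹) (B * (1 + ((b K)⁻¹) ^ 2 • (Bᵀ * B))⁻¹)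
    (C * (1 + ((c K)⁻¹) ^ 2 • (Cᵀ * C))⁻¹) = T3 (a K) (b K) (c K) A B C
  rw [← TT_bet _ (ha K), ← TT_bet _ (hb K), ← TT_bet _ (hc K), ← T3_hom]
  rfl

theorem T3_zero {a b c : ℕ → ℝ} (ha : ∀ K, 0 ≤ a K) (hb : ∀ K, 0 ≤ b K) (hc : ∀ K, 0 ≤ c K)
    (ht : Filter.Tendsto (fun K => a K * b K * c K) Filter.atTop (nhds 0))
    (A B C : Matrix (Bool × ι) (Bool × ι) ℝ) :
    Filter.Tendsto (fun K : ℕ => T3 (a K) (b K) (c K) A B C) Filter.atTop (nhds 0) := by
  have hlim : Filter.Tendsto (fun K : ℕ => a K * b K * c K *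
      (Fintype.card (Bool × ι) : ℝ) ^ 6) Filter.atTop (nhds 0) := by
    have h2 := ht.mul_const ((Fintype.card (Bool × ι) : ℝ) ^ 6)
    simpa using h2
  refine squeeze_zero_norm (fun K => ?_) hlim
  rw [Real.norm_eq_abs]
  have h0 : 0 ≤ a K * b K * c K := mul_nonneg (mul_nonneg (ha K) (hb K)) (hc K)
  unfold T3
  rw [abs_mul, abs_of_nonneg h0]
  exact mul_le_mul_of_nonneg_left (DD_bound406 _ _ _ (bet_bound406 _) (bet_bound406 _)
    (bet_bound406 _)) h0

end

end Pool.Agent.Y292.TF
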