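import Pool.Agent.Y292.TF.Disc

set_option autoImplicit false

open Finset Pool.Agent.TH704 Filter Topology

namespace Pool.Agent.Y292.TF

noncomputable section

/-- thresholds -/
def th (p : ℝ) (N k : ℕ) : ℝ := (2:ℝ) ^ ((⌊((k:ℝ) - N) / p⌋ : ℤ) : ℝ)

theorem th_pos (p : ℝ) (N k : ℕ) : 0 < th p N k := Real.rpow_pos_of_pos (by norm_num) _

theorem th_dbl (p : ℝ) (hp : 1 < p) (N : ℕ) : Dbl (th p N) := by
  refine ⟨th_pos p N, fun k => ?_⟩
  have hp0 : 0 < p := by linarith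
  set z : ℝ := ((k:ℝ) - N) / p with hz
  have e : (((k + 1 : ℕ) : ℝ) - N) / p = z + 1 / p := by
    rw [hz]; push_cast; ring
  have h1 : 0 < 1 / p := by positivity
  have h2 : 1 / p < 1 := by rw [div_lt_one hp0]; exact hp
  have f1 := Int.floor_le z
  have f2 := Int.lt_floor_add_one z
  rcases lt_or_ge (z + 1 / p) (⌊z⌋ + 1 : ℝ) with h | h
  · refine ⟨false, ?_⟩
    have : ⌊z + 1 / p⌋ = ⌊z⌋ := by
      rw [Int.floor_eq_iff]
      constructor
      · linarith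
      · exact h
    unfold th
    rw [e, this]
    simp [fl, hz]
  · refine ⟨true, ?_⟩
    have : ⌊z + 1 / p⌋ = ⌊z⌋ + 1 := by
      rw [Int.floor_eq_iff]
      push_cast
      constructor
      · linarith
      · linarith
    unfold th
    rw [e, this]
    simp only [fl, if_true]
    rw [← hz]
    push_cast
    rw [Real.rpow_add (by norm_num), Real.rpow_one, mul_comm]

theorem th_le (p : ℝ) (N k : ℕ) : th p N k ≤ (2:ℝ) ^ (((k:ℝ) - N) / p) := by
  unfold th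
  exact Real.rpow_le_rpow_of_exponent_le (by norm_num) (Int.floor_le _)

theorem le_th (p : ℝ) (N k : ℕ) : (2:ℝ) ^ (((k:ℝ) - N) / p) ≤ 2 * th p N k := by
  unfold th
  have h := (Int.lt_floor_add_one (((k:ℝ) - N) / p)).le
  calc (2:ℝ) ^ (((k:ℝ) - N) / p) ≤ (2:ℝ) ^ (((⌊((k:ℝ) - N) / p⌋ : ℤ) : ℝ) + 1) :=
        Real.rpow_le_rpow_of_exponent_le (by norm_num) h
    _ = _ := by rw [Real.rpow_add (by norm_num), Real.rpow_one, mul_comm]

theorem th_prod {p q r : ℝ} (h : 1 / p + 1 / q + 1 / r = 1) (N k : ℕ) :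
    th p N k * th q N k * th r N k ≤ (2:ℝ) ^ ((k:ℝ) - N) := by
  have e : (2:ℝ) ^ ((k:ℝ) - N) = (2:ℝ) ^ (((k:ℝ) - N) / p) * (2:ℝ) ^ (((k:ℝ) - N) / q) *
      (2:ℝ) ^ (((k:ℝ) - N) / r) := by
    rw [← Real.rpow_add (by norm_num), ← Real.rpow_add (by norm_num)]
    congr 1
    calc (k:ℝ) - N = ((k:ℝ) - N) * (1 / p + 1 / q + 1 / r) := by rw [h, mul_one]
      _ = _ := by ring
  rw [e]
  have a := th_le p N k
  have b := th_le q N k
  have c := th_le r N k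
  have a0 := (th_pos p N k).le
  have b0 := (th_pos q N k).le
  have c0 := (th_pos r N k).le
  gcongr

theorem sc_le (z y : ℝ) (hy : 0 ≤ y) (h : |z| ≤ 2 * y) : sc z ≤ 16 * min (y ^ 2) (y ^ 4) := by
  have h2 : z ^ 2 ≤ (2 * y) ^ 2 := by
    rw [← sq_abs z]
    exact pow_le_pow_left₀ (abs_nonneg _) h 2
  have h1 : 0 < 1 + z ^ 2 := by positivity
  unfold sc
  rw [div_le_iff₀ h1]
  rcases le_total (y ^ 2) (y ^ 4) with hm | hm
  · rw [min_eq_left hm]
    have h4 : z ^ 4 = z ^ 2 * z ^ 2 := by ring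
    rw [h4]
    have h5 : z ^ 2 ≤ 16 * y ^ 2 := by nlinarith [sq_nonneg y]
    calc z ^ 2 * z ^ 2 ≤ 16 * y ^ 2 * z ^ 2 := mul_le_mul_of_nonneg_right h5 (sq_nonneg z)
      _ ≤ 16 * y ^ 2 * (1 + z ^ 2) := mul_le_mul_of_nonneg_left (by linarith) (by positivity)
  · rw [min_eq_right hm]
    have h5 : z ^ 4 ≤ 16 * y ^ 4 := by
      calc z ^ 4 = (z ^ 2) ^ 2 := by ring
        _ ≤ ((2 * y) ^ 2) ^ 2 := pow_le_pow_left₀ (sq_nonneg z) h2 2
        _ = 16 * y ^ 4 := by ring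
    calc z ^ 4 ≤ 16 * y ^ 4 * 1 := by linarith
      _ ≤ 16 * y ^ 4 * (1 + z ^ 2) := by
        apply mul_le_mul_of_nonneg_left _ (by positivity)
        linarith [sq_nonneg z]

/-- the elementary inequality -/
theorem w_ineq1 {w : ℝ} (h0 : 0 < w) (h1 : w ≤ 1) : w ≤ 4 * (w / (1 + w) ^ 2) := by
  have h2 : 0 < (1 + w) ^ 2 := by positivity
  rw [← mul_div_assoc, le_div_iff₀ h2]
  have : (1 + w) ^ 2 ≤ 4 := by nlinarith
  nlinarith

theorem w_ineq2 {w : ℝ} (h1 : 1 ≤ w) : w⁻¹ ≤ 4 * (w / (1 + w) ^ 2) := by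
  have h0 : 0 < w := by linarith
  have h2 : 0 < (1 + w) ^ 2 := by positivity
  rw [← mul_div_assoc, le_div_iff₀ h2, inv_mul_le_iff₀ h0]
  nlinarith

/-- scalar bound for the powers -/
theorem pow_bd {p δ y : ℝ} (hy : 0 < y) (hδ : 0 ≤ δ) (h1 : δ ≤ p - 2) (h2 : δ ≤ 4 - p) :
    y ^ (-p) * min (y ^ 2) (y ^ 4) ≤ 4 * (y ^ δ / (1 + y ^ δ) ^ 2) := by
  have hw : 0 < y ^ δ := Real.rpow_pos_of_pos hy δ
  have e2 : y ^ 2 = y ^ (2:ℝ) := by norm_cast
  have e4 : y ^ 4 = y ^ (4:ℝ) := by norm_cast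
  have hp0 : 0 < y ^ (-p) := Real.rpow_pos_of_pos hy _
  rcases le_total y 1 with h | h
  · have hw1 : y ^ δ ≤ 1 := Real.rpow_le_one hy.le h hδ
    refine le_trans ?_ (w_ineq1 hw hw1)
    calc y ^ (-p) * min (y ^ 2) (y ^ 4) ≤ y ^ (-p) * y ^ 4 :=
          mul_le_mul_of_nonneg_left (min_le_right _ _) hp0.le
      _ = y ^ (4 - p) := by rw [e4, ← Real.rpow_add hy]; congr 1; ring
      _ ≤ y ^ δ := Real.rpow_le_rpow_of_exponent_ge hy h h2
  · have hw1 : 1 ≤ y ^ δ := Real.one_le_rpow h hδ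
    refine le_trans ?_ (w_ineq2 hw1)
    rw [← Real.rpow_neg hy.le]
    calc y ^ (-p) * min (y ^ 2) (y ^ 4) ≤ y ^ (-p) * y ^ 2 :=
          mul_le_mul_of_nonneg_left (min_le_left _ _) hp0.le
      _ = y ^ (2 - p) := by rw [e2, ← Real.rpow_add hy]; congr 1; ring
      _ ≤ y ^ (-δ) := Real.rpow_le_rpow_of_exponent_le h (by linarith)

/-- telescoping -/
theorem w_tel {w ρ : ℝ} (hw : 0 < w) (hρ : 1 < ρ) :
    w / (1 + w) ^ 2 ≤ (1 - ρ⁻¹)⁻¹ * (1 / (1 + w / ρ) - 1 / (1 + w)) := by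
  have hρ0 : 0 < ρ := by linarith
  have h1 : 0 < 1 - ρ⁻¹ := by
    have := inv_lt_one_of_one_lt₀ hρ
    linarith
  rw [← div_eq_inv_mul, le_div_iff₀ h1]
  have h2 : w / ρ ≤ w := div_le_self hw.le hρ.le
  have h3 : 0 < w / ρ := by positivity
  have e : 1 / (1 + w / ρ) - 1 / (1 + w) = (w * (1 - ρ⁻¹)) / ((1 + w / ρ) * (1 + w)) := by
    have a1 : 1 + w / ρ ≠ 0 := by positivity
    have a2 : 1 + w ≠ 0 := by positivity
    rw [div_sub_div _ _ a1 a2]
    congr 1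
    ring
  rw [e, div_mul_eq_mul_div]
  apply div_le_div_of_nonneg_left (by positivity) (by positivity)
  nlinarith

/-- the sum over the scales -/
theorem scal_sum {p : ℝ} (h1 : 2 < p) (h2 : p < 4) : ∃ D : ℝ, 0 ≤ D ∧
    ∀ (N K : ℕ) (m : ℕ → ℝ), (∀ k, 0 ≤ m k) → (∀ k, m k ≤ (2:ℝ) ^ ((k:ℝ) - N)) → ∀ x : ℝ,
    ∑ k ∈ range K, m k * sc ((th p N k)⁻¹ * x) ≤ D * |x| ^ p := by
  have hp0 : 0 < p := by linarith
  obtain ⟨δ, hδ⟩ : ∃ δ : ℝ, δ = min (p - 2) (4 - p) := ⟨_, rfl⟩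
  have hδ0 : 0 < δ := by rw [hδ]; exact lt_min (by linarith) (by linarith)
  have hδ1 : δ ≤ p - 2 := by rw [hδ]; exact min_le_left _ _
  have hδ2 : δ ≤ 4 - p := by rw [hδ]; exact min_le_right _ _
  obtain ⟨ρ, hρ⟩ : ∃ ρ : ℝ, ρ = (2:ℝ) ^ (δ / p) := ⟨_, rfl⟩
  have hρ1 : 1 < ρ := by rw [hρ]; exact Real.one_lt_rpow (by norm_num) (by positivity)
  have hρi : 0 < 1 - ρ⁻¹ := by
    have := inv_lt_one_of_one_lt₀ hρ1
    linarith
  refine ⟨64 * (1 - ρ⁻¹)⁻¹, by positivity, fun N K m hm0 hm x => ?_⟩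
  rcases eq_or_ne x 0 with rfl | hx
  · have h3 : ∀ k ∈ range K, m k * sc ((th p N k)⁻¹ * 0) = 0 := by
      intro k _
      unfold sc
      simp
    rw [Finset.sum_congr rfl h3]
    simp
    positivity
  have hx0 : 0 < |x| := abs_pos.2 hx
  obtain ⟨y, hy⟩ : ∃ y : ℕ → ℝ, y = fun k : ℕ => |x| * (2:ℝ) ^ (-(((k:ℝ) - N) / p)) := ⟨_, rfl⟩
  have hy0 : ∀ k, 0 < y k := fun k => by
    rw [hy]
    exact mul_pos hx0 (Real.rpow_pos_of_pos (by norm_num) _)
  have hxp : 0 < |x| ^ p := Real.rpow_pos_of_pos hx0 _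
  have e1 : ∀ k : ℕ, (2:ℝ) ^ ((k:ℝ) - N) = |x| ^ p * (y k) ^ (-p) := by
    intro k
    simp only [hy]
    rw [Real.mul_rpow hx0.le (Real.rpow_nonneg (by norm_num) _), ← Real.rpow_mul (by norm_num),
      ← mul_assoc, ← Real.rpow_add hx0]
    have a1 : p + -p = 0 := by ring
    have a2 : -(((k:ℝ) - N) / p) * -p = (k:ℝ) - N := by field_simp
    rw [a1, a2, Real.rpow_zero, one_mul]
  have e2 : ∀ k : ℕ, (y (k + 1)) ^ δ = (y k) ^ δ / ρ := by
    intro k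
    have a1 : y (k + 1) = y k * (2:ℝ) ^ (-(1 / p)) := by
      simp only [hy]
      rw [mul_assoc, ← Real.rpow_add (by norm_num)]
      congr 2
      push_cast
      ring
    rw [a1, Real.mul_rpow (hy0 k).le (Real.rpow_nonneg (by norm_num) _),
      ← Real.rpow_mul (by norm_num), hρ, div_eq_mul_inv ((y k) ^ δ), ← Real.rpow_neg (by norm_num)]
    congr 2
    ring
  have term : ∀ k, m k * sc ((th p N k)⁻¹ * x) ≤ 64 * |x| ^ p * (1 - ρ⁻¹)⁻¹ *
      (1 / (1 + (y (k + 1)) ^ δ) - 1 / (1 + (y k) ^ δ)) := by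
    intro k
    have b1 : |(th p N k)⁻¹ * x| ≤ 2 * y k := by
      rw [abs_mul, abs_of_pos (inv_pos.2 (th_pos p N k))]
      simp only [hy]
      have c1 := le_th p N k
      have c2 : 0 < (2:ℝ) ^ (((k:ℝ) - N) / p) := Real.rpow_pos_of_pos (by norm_num) _
      have c3 : (th p N k)⁻¹ ≤ 2 * (2:ℝ) ^ (-(((k:ℝ) - N) / p)) := by
        rw [Real.rpow_neg (by norm_num), ← div_eq_mul_inv, inv_eq_one_div,
          div_le_div_iff₀ (th_pos p N k) c2]
        linarith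
      calc (th p N k)⁻¹ * |x| ≤ 2 * (2:ℝ) ^ (-(((k:ℝ) - N) / p)) * |x| :=
            mul_le_mul_of_nonneg_right c3 hx0.le
        _ = _ := by ring
    have b2 := sc_le _ _ (hy0 k).le b1
    have b3 := pow_bd (hy0 k) hδ0.le hδ1 hδ2
    have b4 := w_tel (Real.rpow_pos_of_pos (hy0 k) δ) hρ1
    rw [← e2 k] at b4
    have sc0 : 0 ≤ sc ((th p N k)⁻¹ * x) := by unfold sc; positivity
    calc m k * sc ((th p N k)⁻¹ * x) ≤ (2:ℝ) ^ ((k:ℝ) - N) * sc ((th p N k)⁻¹ * x) :=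
          mul_le_mul_of_nonneg_right (hm k) sc0
      _ ≤ (2:ℝ) ^ ((k:ℝ) - N) * (16 * min ((y k) ^ 2) ((y k) ^ 4)) :=
          mul_le_mul_of_nonneg_left b2 (Real.rpow_nonneg (by norm_num) _)
      _ = 16 * |x| ^ p * ((y k) ^ (-p) * min ((y k) ^ 2) ((y k) ^ 4)) := by rw [e1 k]; ring
      _ ≤ 16 * |x| ^ p * (4 * ((y k) ^ δ / (1 + (y k) ^ δ) ^ 2)) :=
          mul_le_mul_of_nonneg_left b3 (by positivity)
      _ ≤ 16 * |x| ^ p * (4 * ((1 - ρ⁻¹)⁻¹ *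
            (1 / (1 + (y (k + 1)) ^ δ) - 1 / (1 + (y k) ^ δ)))) := by
          apply mul_le_mul_of_nonneg_left _ (by positivity)
          exact mul_le_mul_of_nonneg_left b4 (by norm_num)
      _ = _ := by ring
  refine (Finset.sum_le_sum fun k _ => term k).trans ?_
  rw [← Finset.mul_sum, Finset.sum_range_sub (fun k => 1 / (1 + (y k) ^ δ))]
  have c1 : 1 / (1 + (y K) ^ δ) ≤ 1 := by
    rw [div_le_one (by have := Real.rpow_pos_of_pos (hy0 K) δ; positivity)]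
    have := Real.rpow_pos_of_pos (hy0 K) δ
    linarith
  have c2 : 0 ≤ 1 / (1 + (y 0) ^ δ) := by
    have := Real.rpow_pos_of_pos (hy0 0) δ
    positivity
  calc 64 * |x| ^ p * (1 - ρ⁻¹)⁻¹ * (1 / (1 + (y K) ^ δ) - 1 / (1 + (y 0) ^ δ))
      ≤ 64 * |x| ^ p * (1 - ρ⁻¹)⁻¹ * 1 := by
        apply mul_le_mul_of_nonneg_left (by linarith) (by positivity)
    _ = _ := by ring

theorem th_top {p : ℝ} (hp : 0 < p) : Tendsto (fun K : ℕ => (th p K (2 * K))⁻¹) atTop (𝓝 0) := by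
  have h1 : Tendsto (fun K : ℕ => 2 * (2:ℝ) ^ (-((K:ℝ) / p))) atTop (𝓝 (2 * 0)) := by
    refine Tendsto.const_mul _ ?_
    have h2 : Tendsto (fun K : ℕ => ((2:ℝ) ^ (-(1 / p))) ^ K) atTop (𝓝 0) := by
      refine tendsto_pow_atTop_nhds_zero_of_lt_one (Real.rpow_nonneg (by norm_num) _) ?_
      exact Real.rpow_lt_one_of_one_lt_of_neg (by norm_num) (by
        have : 0 < 1 / p := by positivity
        linarith)
    refine h2.congr fun K => ?_
    rw [← Real.rpow_natCast, ← Real.rpow_mul (by norm_num)]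
    congr 1
    ring
  rw [mul_zero] at h1
  refine squeeze_zero (fun K => (inv_pos.2 (th_pos _ _ _)).le) (fun K => ?_) h1
  have c1 := le_th p K (2 * K)
  have e : (((2 * K : ℕ) : ℝ) - K) / p = (K:ℝ) / p := by push_cast; ring
  rw [e] at c1
  have c2 : 0 < (2:ℝ) ^ ((K:ℝ) / p) := Real.rpow_pos_of_pos (by norm_num) _
  rw [Real.rpow_neg (by norm_num), ← div_eq_mul_inv, inv_eq_one_div,
    div_le_div_iff₀ (th_pos p K _) c2]
  linarith

theorem th_zero {p q r : ℝ} (h : 1 / p + 1 / q + 1 / r = 1) :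
    Tendsto (fun K : ℕ => th p K 0 * th q K 0 * th r K 0) atTop (𝓝 0) := by
  have h2 : Tendsto (fun K : ℕ => ((1 / 2 : ℝ)) ^ K) atTop (𝓝 0) :=
    tendsto_pow_atTop_nhds_zero_of_lt_one (by norm_num) (by norm_num)
  refine squeeze_zero (fun K => ?_) (fun K => ?_) h2
  · have a0 := (th_pos p K 0).le
    have b0 := (th_pos q K 0).le
    have c0 := (th_pos r K 0).le
    positivity
  · have := th_prod h K 0
    refine this.trans (le_of_eq ?_)
    rw [Nat.cast_zero, zero_sub, Real.rpow_neg (by norm_num), Real.rpow_natCast, one_div, inv_pow]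

/-- **The discrete bound.** -/
theorem disc {p q r : ℝ} (hp : p ∈ Set.Ioo (2:ℝ) 4) (hq : q ∈ Set.Ioo (2:ℝ) 4)
    (hr : r ∈ Set.Ioo (2:ℝ) 4) (h : 1 / p + 1 / q + 1 / r = 1) : ∃ C : ℝ, 0 ≤ C ∧
    ∀ (n : ℕ) (f g h : ℕ → ℕ → ℝ), ∑ s ∈ range n, |Lam n s f g h| ≤
      C * (avg (fun x => |x| ^ p) n f + avg (fun x => |x| ^ q) n g +
        avg (fun x => |x| ^ r) n h) := by
  obtain ⟨D1, hD1, b1⟩ := scal_sum hp.1 hp.2
  obtain ⟨D2, hD2, b2⟩ := scal_sum hq.1 hq.2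
  obtain ⟨D3, hD3, b3⟩ := scal_sum hr.1 hr.2
  obtain ⟨D, hD⟩ : ∃ D : ℝ, D = max D1 (max D2 D3) := ⟨_, rfl⟩
  have k1 : D1 ≤ D := by rw [hD]; exact le_max_left _ _
  have k2 : D2 ≤ D := by rw [hD]; exact (le_max_left _ _).trans (le_max_right _ _)
  have k3 : D3 ≤ D := by rw [hD]; exact (le_max_right _ _).trans (le_max_right _ _)
  have p1 : 1 < p := by linarith [hp.1]
  have q1 : 1 < q := by linarith [hq.1]
  have r1 : 1 < r := by linarith [hr.1]
  refine ⟨184 * D, by linarith, fun n f g u => (Lam_tree n f g u).trans ?_⟩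
  have hm0 : ∀ N k : ℕ, 0 ≤ th p N k * th q N k * th r N k := fun N k => by
    have a0 := (th_pos p N k).le
    have b0 := (th_pos q N k).le
    have c0 := (th_pos r N k).le
    positivity
  have hb : ∀ K : ℕ, tree (fun n f g h => |T3 (th p K (2 * K)) (th q K (2 * K)) (th r K (2 * K))
      (mt1 n f) (mt1 n g) (mt1 n h) - T3 (th p K 0) (th q K 0) (th r K 0)
      (mt1 n f) (mt1 n g) (mt1 n h)|) n f g u ≤
      184 * D * (avg (fun x => |x| ^ p) n f + avg (fun x => |x| ^ q) n g +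
        avg (fun x => |x| ^ r) n u) := by
    intro K
    refine tree_T3 (a := th p K) (b := th q K) (c := th r K) (th_dbl p p1 K) (th_dbl q q1 K)
      (th_dbl r r1 K) ?_ ?_ ?_ n f g u
    · intro x
      exact (b1 K (2 * K) _ (hm0 K) (th_prod h K) x).trans
        (mul_le_mul_of_nonneg_right k1 (Real.rpow_nonneg (abs_nonneg _) _))
    · intro x
      exact (b2 K (2 * K) _ (hm0 K) (th_prod h K) x).trans
        (mul_le_mul_of_nonneg_right k2 (Real.rpow_nonneg (abs_nonneg _) _))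
    · intro x
      exact (b3 K (2 * K) _ (hm0 K) (th_prod h K) x).trans
        (mul_le_mul_of_nonneg_right k3 (Real.rpow_nonneg (abs_nonneg _) _))
  refine le_of_tendsto' (tree_lim (N := fun K n f g h => |T3 (th p K (2 * K)) (th q K (2 * K))
      (th r K (2 * K)) (mt1 n f) (mt1 n g) (mt1 n h) - T3 (th p K 0) (th q K 0) (th r K 0)
      (mt1 n f) (mt1 n g) (mt1 n h)|)
      (N0 := fun n f g h => |DD (mt1 n f) (mt1 n g) (mt1 n h)|) (fun n f g h' => ?_) n f g u) hb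
  have e1 := T3_atTop (a := fun K => th p K (2 * K)) (b := fun K => th q K (2 * K))
    (c := fun K => th r K (2 * K)) (fun K => (th_pos _ _ _).ne') (fun K => (th_pos _ _ _).ne')
    (fun K => (th_pos _ _ _).ne') (th_top (by linarith)) (th_top (by linarith))
    (th_top (by linarith)) (mt1 n f) (mt1 n g) (mt1 n h')
  have e2 := T3_zero (a := fun K => th p K 0) (b := fun K => th q K 0)
    (c := fun K => th r K 0) (fun K => (th_pos _ _ _).le) (fun K => (th_pos _ _ _).le)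
    (fun K => (th_pos _ _ _).le) (th_zero h) (mt1 n f) (mt1 n g) (mt1 n h')
  have e3 := (e1.sub e2).abs
  rw [sub_zero] at e3
  exact e3

end

end Pool.Agent.Y292.TF
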